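import Pool.Agent.N495.TS.Stm3

/-!
# Stable subgroups of order two and three of `y² = x³ + Ax + B` (helper505)

The part of order two is the proof of `Pool.Agent.Q19.SU.root_of`, the part of order three is the
same argument with the doubling formula.
-/

set_option autoImplicit false

namespace Pool.Agent.N505.TS

open WeierstrassCurve NumberField Pool.Agent.H901R3.MS Pool.Agent.Y673.Loc

variable {K : Type} [Field K] [NumberField K]

theorem pt_inj {F : Type} [Field F] {a b : F} {x y x' y' : F}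
    {h : (CV a b).toAffine.Nonsingular x y} {h' : (CV a b).toAffine.Nonsingular x' y'}
    (e : (Affine.Point.some x y h : Pt a b) = Affine.Point.some x' y' h') : x = x' ∧ y = y' := by
  injection e with e1 e2
  exact ⟨e1, e2⟩

theorem disc_of {A B : K} (hD : 4 * A ^ 3 + 27 * B ^ 2 ≠ 0) :
    Disc (ca (AlgebraicClosure K) A) (ca (AlgebraicClosure K) B) := by
  haveI : CharZero (AlgebraicClosure K) :=
    charZero_of_injective_algebraMap (algebraMap K (AlgebraicClosure K)).injective
  unfold Disc ca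
  refine mul_ne_zero two_ne_zero ?_
  have e : (4 : AlgebraicClosure K) * (algebraMap K (AlgebraicClosure K) A) ^ 3 +
      27 * (algebraMap K (AlgebraicClosure K) B) ^ 2 =
      algebraMap K (AlgebraicClosure K) (4 * A ^ 3 + 27 * B ^ 2) := by
    simp only [map_mul, map_add, map_pow, map_ofNat]
  rw [e]
  exact (map_ne_zero _).2 hD

open scoped Classical in
theorem stb_of {A B : K} {v : EP A B}
    (hst : ∀ σ : AlgebraicClosure K ≃ₐ[K] AlgebraicClosure K,
      act A B σ v ∈ AddSubgroup.zmultiples v) (σ : AlgebraicClosure K ≃ₐ[K] AlgebraicClosure K) :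
    mp A B (σ : AlgebraicClosure K →ₐ[K] AlgebraicClosure K) (eqv A B (AlgebraicClosure K) v) ∈
      AddSubgroup.zmultiples (eqv A B (AlgebraicClosure K) v) := by
  obtain ⟨m, hm⟩ := AddSubgroup.mem_zmultiples_iff.1 (hst σ)
  rw [← gal_eqv]
  refine AddSubgroup.mem_zmultiples_iff.2 ⟨m, ?_⟩
  rw [← map_zsmul, hm]
  rfl

open scoped Classical in
/-- **a stable subgroup of order two** comes from a root over the field -/
theorem root_two {A B : K} (hD : 4 * A ^ 3 + 27 * B ^ 2 ≠ 0)
    {v₀ : Pt (ca (AlgebraicClosure K) A) (ca (AlgebraicClosure K) B)} (hv : 2 • v₀ = 0)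
    (hv0 : v₀ ≠ 0)
    (hst : ∀ τ : AlgebraicClosure K ≃ₐ[K] AlgebraicClosure K,
      mp A B (τ : AlgebraicClosure K →ₐ[K] AlgebraicClosure K) v₀ ∈ AddSubgroup.zmultiples v₀) :
    ∃ x : K, x ^ 3 + A * x + B = 0 := by
  haveI : CharZero (AlgebraicClosure K) :=
    charZero_of_injective_algebraMap (algebraMap K (AlgebraicClosure K)).injective
  have discK := disc_of hD
  have h2K : (2 : AlgebraicClosure K) ≠ 0 := two_ne_zero
  have fix : ∀ τ : AlgebraicClosure K ≃ₐ[K] AlgebraicClosure K,
      mp A B (τ : AlgebraicClosure K →ₐ[K] AlgebraicClosure K) v₀ = v₀ := by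
    intro τ
    obtain ⟨m, hm⟩ := AddSubgroup.mem_zmultiples_iff.1 (hst τ)
    have h2 : (2 : ℤ) • v₀ = 0 := by
      rw [← hv]
      exact natCast_zsmul v₀ 2
    rcases Int.even_or_odd m with ⟨k, hk⟩ | ⟨k, hk⟩
    · exfalso
      apply hv0
      apply mp_injective A B (τ : AlgebraicClosure K →ₐ[K] AlgebraicClosure K)
      rw [← hm, map_zero, hk, ← two_mul, mul_comm, mul_zsmul, h2, zsmul_zero]
    · rw [← hm, hk, add_zsmul, mul_comm, mul_zsmul, h2, zsmul_zero, zero_add, one_zsmul]
  rcases v₀ with _ | ⟨x, y, h⟩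
  · exact absurd rfl hv0
  have hxy : ∀ τ : AlgebraicClosure K ≃ₐ[K] AlgebraicClosure K, τ x = x := by
    intro τ
    have h1 := fix τ
    rw [mp_some] at h1
    exact (pt_inj h1).1
  have hy0 : y = 0 := by
    by_contra hy
    have hyy : y ≠ -y := by
      intro h1
      apply hy
      have h2 : 2 * y = 0 := by linear_combination h1
      exact (mul_eq_zero.1 h2).resolve_left h2K
    rw [two_nsmul] at hv
    obtain ⟨h3, h4⟩ := add_dbl h h rfl hyy _ _ _ rfl rfl rfl
    rw [h4] at hv
    exact absurd hv (Affine.Point.some_ne_zero h3)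
  have hE := (nonsingular_iff discK).1 h
  unfold Eqn at hE
  rw [hy0] at hE
  obtain ⟨x₀, rfl⟩ := (InfiniteGalois.mem_range_algebraMap_iff_fixed (k := K) x).2 hxy
  refine ⟨x₀, (algebraMap K (AlgebraicClosure K)).injective ?_⟩
  rw [map_zero, map_add, map_add, map_pow, map_mul]
  unfold ca at hE
  linear_combination -hE

open scoped Classical in
/-- **a stable subgroup of order three** comes from a root over the field of the polynomial of the
points of order three -/
theorem root_three {A B : K} (hD : 4 * A ^ 3 + 27 * B ^ 2 ≠ 0)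
    {v₀ : Pt (ca (AlgebraicClosure K) A) (ca (AlgebraicClosure K) B)} (hv : 3 • v₀ = 0)
    (hv0 : v₀ ≠ 0)
    (hst : ∀ τ : AlgebraicClosure K ≃ₐ[K] AlgebraicClosure K,
      mp A B (τ : AlgebraicClosure K →ₐ[K] AlgebraicClosure K) v₀ ∈ AddSubgroup.zmultiples v₀) :
    ∃ x : K, 3 * x ^ 4 + 6 * A * x ^ 2 + 12 * B * x - A ^ 2 = 0 := by
  haveI : CharZero (AlgebraicClosure K) :=
    charZero_of_injective_algebraMap (algebraMap K (AlgebraicClosure K)).injective
  have discK := disc_of hD
  have h2K : (2 : AlgebraicClosure K) ≠ 0 := two_ne_zero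
  have fix : ∀ τ : AlgebraicClosure K ≃ₐ[K] AlgebraicClosure K,
      mp A B (τ : AlgebraicClosure K →ₐ[K] AlgebraicClosure K) v₀ = v₀ ∨
      mp A B (τ : AlgebraicClosure K →ₐ[K] AlgebraicClosure K) v₀ = -v₀ := by
    intro τ
    obtain ⟨m, hm⟩ := AddSubgroup.mem_zmultiples_iff.1 (hst τ)
    have h3 : (3 : ℤ) • v₀ = 0 := by
      rw [← hv]
      exact natCast_zsmul v₀ 3
    have hk : m • v₀ = (m % 3) • v₀ := by
      conv_lhs => rw [← Int.emod_add_mul_ediv m 3]
      rw [add_zsmul, mul_comm, mul_zsmul, h3, zsmul_zero, add_zero]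
    have h0 : 0 ≤ m % 3 := Int.emod_nonneg _ (by norm_num)
    have h1 : m % 3 < 3 := Int.emod_lt_of_pos _ (by norm_num)
    rw [hk] at hm
    have hc : m % 3 = 0 ∨ m % 3 = 1 ∨ m % 3 = 2 := by omega
    rcases hc with hc | hc | hc
    · exfalso
      apply hv0
      apply mp_injective A B (τ : AlgebraicClosure K →ₐ[K] AlgebraicClosure K)
      rw [← hm, map_zero, hc, zero_zsmul]
    · left
      rw [← hm, hc, one_zsmul]
    · right
      rw [← hm, hc]
      have e : (2 : ℤ) • v₀ = (3 : ℤ) • v₀ + (-1 : ℤ) • v₀ := by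
        rw [← add_zsmul]; norm_num
      rw [e, h3, zero_add, neg_one_zsmul]
  rcases v₀ with _ | ⟨x, y, h⟩
  · exact absurd rfl hv0
  have hE := (nonsingular_iff discK).1 h
  have hns : (CV (ca (AlgebraicClosure K) A) (ca (AlgebraicClosure K) B)).toAffine.Nonsingular
      x (-y) := by
    rw [nonsingular_iff discK]
    unfold Eqn at hE ⊢
    linear_combination hE
  have hneg := neg_some' h hns
  have hxy : ∀ τ : AlgebraicClosure K ≃ₐ[K] AlgebraicClosure K, τ x = x := by
    intro τ
    rcases fix τ with h1 | h1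
    · rw [mp_some] at h1
      exact (pt_inj h1).1
    · rw [mp_some, hneg] at h1
      exact (pt_inj h1).1
  have hv2 : (Affine.Point.some x y h + Affine.Point.some x y h :
      Pt (ca (AlgebraicClosure K) A) (ca (AlgebraicClosure K) B)) = -Affine.Point.some x y h := by
    rw [eq_neg_iff_add_eq_zero, ← hv]
    rw [show (3 : ℕ) = 2 + 1 from rfl, succ_nsmul, two_nsmul]
  have hy0 : y ≠ 0 := by
    intro hy
    rw [add_opp h h rfl (by rw [hy, neg_zero])] at hv2
    apply hv0
    rw [← neg_eq_zero]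
    exact hv2.symm
  have hyy : y ≠ -y := by
    intro h1
    apply hy0
    have h2 : 2 * y = 0 := by linear_combination h1
    exact (mul_eq_zero.1 h2).resolve_left h2K
  obtain ⟨h3, h4⟩ := add_dbl h h rfl hyy _ _ _ rfl rfl rfl
  rw [h4, hneg] at hv2
  have h5 := (pt_inj hv2).1
  have h2y : 2 * y ≠ 0 := mul_ne_zero h2K hy0
  have h6 : (3 * x ^ 2 + ca (AlgebraicClosure K) A) ^ 2 = 3 * x * (2 * y) ^ 2 := by
    have h7 : ((3 * x ^ 2 + ca (AlgebraicClosure K) A) / (2 * y)) ^ 2 = 3 * x := by
      linear_combination h5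
    rw [div_pow, div_eq_iff (pow_ne_zero 2 h2y)] at h7
    exact h7
  obtain ⟨x₀, rfl⟩ := (InfiniteGalois.mem_range_algebraMap_iff_fixed (k := K) x).2 hxy
  refine ⟨x₀, (algebraMap K (AlgebraicClosure K)).injective ?_⟩
  unfold Eqn at hE
  unfold ca at hE h6
  simp only [map_zero, map_add, map_sub, map_pow, map_mul, map_ofNat]
  linear_combination -h6 - 12 * (algebraMap K (AlgebraicClosure K) x₀) * hE

open scoped Classical in
/-- stable subgroups of order two and three, over any number field -/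
theorem line23 (A B : K) (hD : 4 * A ^ 3 + 27 * B ^ 2 ≠ 0) (v : EP A B) (hv0 : v ≠ 0)
    (hst : ∀ σ : AlgebraicClosure K ≃ₐ[K] AlgebraicClosure K,
      act A B σ v ∈ AddSubgroup.zmultiples v) :
    (2 • v = 0 → ∃ x : K, x ^ 3 + A * x + B = 0) ∧
    (3 • v = 0 → ∃ x : K, 3 * x ^ 4 + 6 * A * x ^ 2 + 12 * B * x - A ^ 2 = 0) := by
  have hv0' : eqv A B (AlgebraicClosure K) v ≠ 0 := by
    intro h
    exact hv0 ((eqv A B (AlgebraicClosure K)).map_eq_zero_iff.1 h)
  refine ⟨fun h2 => ?_, fun h3 => ?_⟩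
  · refine root_two hD (v₀ := eqv A B (AlgebraicClosure K) v) ?_ hv0' (stb_of hst)
    rw [← map_nsmul, h2, map_zero]
  · refine root_three hD (v₀ := eqv A B (AlgebraicClosure K) v) ?_ hv0' (stb_of hst)
    rw [← map_nsmul, h3, map_zero]

open scoped Classical in
/-- **the leaf**: stable subgroups of order two and three -/
theorem t_L23 : Pool.Agent.N495.TS.S_LINE23 := by
  intro A B hD v hv0 hst
  exact line23 A B hD v hv0 hst

end Pool.Agent.N505.TS
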